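import Pool.Agent.Helper70_PDS.Stmts

/-! # EVEN: handshake lemma for realizable multisets -/

namespace PDS

theorem even : EvenStmt := by
  rintro D ⟨V, hV, G, -, rfl⟩
  classical
  have h1 : ∀ v, dg G v = G.degree v := by
    intro v
    rw [dg, Set.ncard_eq_toFinset_card', ← SimpleGraph.card_neighborSet_eq_degree,
      Set.toFinset_card]
  have h2 : ((Finset.univ : Finset V).val.map (dg G)).sum = ∑ v, G.degree v := by
    rw [Finset.sum_eq_multiset_sum]
    congr 1
    exact Multiset.map_congr rfl fun v _ => h1 v
  rw [h2, SimpleGraph.sum_degrees_eq_twice_card_edges]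
  omega

end PDS
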