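import Pool.Agent.Helper70_PDS.Stmts

/-! # FILL: raising many vertices at once -/

namespace PDS

open Multiset

/-- raising one vertex several times -/
theorem fill_one {c i k : ℕ} (h : Raise c i k) (x : ℕ) (D : Multiset ℕ) (hD : Rz (x ::ₘ D))
    (n : ℕ) : Rz ((x + c * n) ::ₘ (D + replicate (k * n) i)) := by
  induction n with
  | zero => simpa using hD
  | succ n ih =>
    have h1 := h _ _ ih
    have e1 : x + c * n + c = x + c * (n + 1) := by ring
    have e2 : D + replicate (k * n) i + replicate k i = D + replicate (k * (n + 1)) i := by
      rw [add_assoc, ← replicate_add, mul_add, mul_one]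
    rw [e1, e2] at h1
    exact h1

theorem fill_aux {c i k : ℕ} (h : Raise c i k) (V : Type) [DecidableEq V] (f e : V → ℕ)
    (s : Finset V) : ∀ D : Multiset ℕ, Rz (s.val.map f + D) →
    Rz (s.val.map (fun v => f v + c * e v) + D + replicate (k * ∑ v ∈ s, e v) i) := by
  induction s using Finset.induction_on with
  | empty => intro D hD; simpa using hD
  | insert a s ha ih =>
    intro D hD
    rw [Finset.insert_val_of_notMem ha, map_cons, cons_add] at hD
    have h1 := fill_one h _ _ hD (e a)
    have h2 : (f a + c * e a) ::ₘ (s.val.map f + D + replicate (k * e a) i) =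
        s.val.map f + ((f a + c * e a) ::ₘ (D + replicate (k * e a) i)) := by
      rw [add_cons, add_assoc]
    rw [h2] at h1
    have h3 := ih _ h1
    rw [Finset.insert_val_of_notMem ha, map_cons, Finset.sum_insert ha, mul_add, replicate_add]
    convert h3 using 1
    rw [add_cons, cons_add, cons_add, cons_add]
    congr 1
    rw [add_assoc, add_assoc, add_assoc]

theorem fill : FillStmt := by
  intro c i k h V _ f e D hD
  classical
  exact fill_aux h V f e Finset.univ D hD

end PDS
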